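import Pool.Agent.Work.MP_c146e2_gt.Main

/-! A prime knot whose group has rank smaller than the Heegaard genus of its exterior. -/

set_option autoImplicit false

namespace Pool.Agent.Results.MP_c146e2_gt.PrimeKnot

open RankGenus

theorem result : ∃ (K : Word) (n : ℕ), IsPrime K ∧
    (∃ f : Fin n → knotGroup K, Subgroup.closure (Set.range f) = ⊤) ∧ n < genus K :=
  main

end Pool.Agent.Results.MP_c146e2_gt.PrimeKnot
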